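import Pool.Agent.MP_3ce0a0_al.H79.SpecN

/-
Chains on finite graphs: relative cycles, traces and the Lefschetz formula.
-/

namespace Pool.Agent.MP_3ce0a0_al.H81

open Pool.Agent.MP_3ce0a0_al.H79 Equiv Module

namespace GrAux

/-- additivity of the trace along a short exact sequence. -/
theorem tr_add {H A C : Type} [AddCommGroup H] [Module ℂ H] [FiniteDimensional ℂ H]
    [AddCommGroup A] [Module ℂ A] [FiniteDimensional ℂ A]
    [AddCommGroup C] [Module ℂ C] [FiniteDimensional ℂ C]
    (j : H →ₗ[ℂ] A) (d : A →ₗ[ℂ] C) (μ : H →ₗ[ℂ] H) (f : A →ₗ[ℂ] A) (h : C →ₗ[ℂ] C)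
    (hj : Function.Injective j) (hd : Function.Surjective d)
    (hex : ∀ a, d a = 0 ↔ a ∈ LinearMap.range j) (h1 : j ∘ₗ μ = f ∘ₗ j) (h2 : d ∘ₗ f = h ∘ₗ d) :
    LinearMap.trace ℂ A f = LinearMap.trace ℂ H μ + LinearMap.trace ℂ C h := by
  obtain ⟨s, hs⟩ := d.exists_rightInverse_of_surjective (LinearMap.range_eq_top.2 hd)
  obtain ⟨r, hr⟩ := j.exists_leftInverse_of_injective (LinearMap.ker_eq_bot.2 hj)
  have hs' : ∀ c, d (s c) = c := fun c => by simpa using LinearMap.congr_fun hs c
  have hr' : ∀ x, r (j x) = x := fun x => by simpa using LinearMap.congr_fun hr x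
  have hdj : ∀ x, d (j x) = 0 := fun x => (hex _).2 ⟨x, rfl⟩
  set r' : A →ₗ[ℂ] H := r ∘ₗ (LinearMap.id - s ∘ₗ d) with hr'def
  have hjr : ∀ a, j (r' a) = a - s (d a) := by
    intro a
    obtain ⟨x, hx⟩ := (hex (a - s (d a))).1 (by rw [map_sub, hs', sub_self])
    simp only [hr'def, LinearMap.comp_apply, LinearMap.sub_apply, LinearMap.id_apply]
    rw [← hx, hr']
  have e1 : f = (f ∘ₗ j) ∘ₗ r' + (f ∘ₗ s) ∘ₗ d := by
    ext a
    simp only [LinearMap.add_apply, LinearMap.comp_apply, hjr, map_sub, sub_add_cancel]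
  have e2 : r' ∘ₗ (f ∘ₗ j) = μ := by
    rw [← h1]
    ext x
    simp [hr'def, hdj, hr']
  have e3 : d ∘ₗ (f ∘ₗ s) = h := by
    ext c
    have := LinearMap.congr_fun h2 (s c)
    simp only [LinearMap.comp_apply] at this ⊢
    rw [this, hs']
  conv_lhs => rw [e1]
  rw [map_add, LinearMap.trace_comp_comm', e2, LinearMap.trace_comp_comm', e3]

theorem tr_neg (H : Type) [AddCommGroup H] [Module ℂ H] [FiniteDimensional ℂ H] :
    LinearMap.trace ℂ H (-LinearMap.id) = -(finrank ℂ H : ℂ) := by
  rw [map_neg, LinearMap.trace_id]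

/-- the trace of a permutation map counts fixed points. -/
theorem tr_perm {α : Type} [Fintype α] (g : α → α) :
    LinearMap.trace ℂ (α → ℂ) (LinearMap.funLeft ℂ ℂ g) = Nat.card {a // g a = a} := by
  classical
  rw [LinearMap.trace_eq_matrix_trace ℂ (Pi.basisFun ℂ α), Matrix.trace, Nat.card_eq_fintype_card,
    Fintype.card_subtype, Finset.card_filter]
  push_cast
  refine Finset.sum_congr rfl fun a _ => ?_
  simp [Pi.single_apply]

variable {V E : Type} [Fintype V] [Fintype E] (o t : E → V)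

/-- the boundary map. -/
noncomputable def B : (E → ℂ) →ₗ[ℂ] (V → ℂ) where
  toFun c v := bd o t c v
  map_add' c c' := by
    funext v
    simp only [bd, Pi.add_apply]
    rw [sub_add_sub_comm, ← Finset.sum_add_distrib, ← Finset.sum_add_distrib]
    congr 1 <;> refine Finset.sum_congr rfl fun e _ => ?_ <;> split_ifs <;> simp
  map_smul' a c := by
    funext v
    simp only [bd, Pi.smul_apply, smul_eq_mul, RingHom.id_apply, mul_sub, Finset.mul_sum, mul_ite,
      mul_zero]

omit [Fintype V] in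
theorem B_apply (c : E → ℂ) (v : V) : B o t c v = bd o t c v := rfl

omit [Fintype V] in
theorem cyc_iff (c : E → ℂ) : Cyc o t c ↔ B o t c = 0 := by
  simp only [Cyc, funext_iff, B_apply, bd, Pi.zero_apply, sub_eq_zero]

theorem sum_bd (c : E → ℂ) : ∑ v, bd o t c v = 0 := by
  classical
  simp only [bd, Finset.sum_sub_distrib]
  rw [Finset.sum_comm, Finset.sum_comm (f := fun v e => if o e = v then c e else 0)]
  simp

omit [Fintype V] in
theorem bd_congr {c c' : E → ℂ} {v : V} (h : ∀ e, o e = v ∨ t e = v → c e = c' e) :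
    bd o t c v = bd o t c' v := by
  simp only [bd]
  congr 1 <;> refine Finset.sum_congr rfl fun e _ => ?_ <;> split_ifs with he
  · exact h e (Or.inr he)
  · rfl
  · exact h e (Or.inl he)
  · rfl

omit [Fintype V] in
open Classical in
theorem bd_single (e : E) (v : V) :
    bd o t (Pi.single e 1) v = (if v = t e then 1 else 0) - if v = o e then 1 else 0 := by
  simp only [bd]
  rw [Finset.sum_eq_single e (fun b _ hb => by simp [hb]) (by simp),
    Finset.sum_eq_single e (fun b _ hb => by simp [hb]) (by simp)]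
  simp [eq_comm]

omit [Fintype V] in
open Classical in
/-- the chain of a path. -/
theorem path {Q : E → Prop} {u v : V} (h : Lnk o t Q u v) :
    ∃ c : E → ℂ, (∀ e, c e ≠ 0 → Q e) ∧
      ∀ w, bd o t c w = (if w = v then 1 else 0) - if w = u then 1 else 0 := by
  induction h with
  | refl => exact ⟨0, fun e he => (he rfl).elim, fun w => by simp [bd]⟩
  | tail _ hbc ih =>
    obtain ⟨c, hc, hb⟩ := ih
    obtain ⟨e, he, h | h⟩ := hbc
    · refine ⟨c + Pi.single e 1, fun e' h' => ?_, fun w => ?_⟩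
      · by_cases hh : e' = e
        · exact hh ▸ he
        · exact hc e' (by simpa [hh] using h')
      · rw [← B_apply, map_add, Pi.add_apply, B_apply, B_apply, hb, bd_single, h.1, h.2]
        ring
    · refine ⟨c - Pi.single e 1, fun e' h' => ?_, fun w => ?_⟩
      · by_cases hh : e' = e
        · exact hh ▸ he
        · exact hc e' (by simpa [hh] using h')
      · rw [← B_apply, map_sub, Pi.sub_apply, B_apply, B_apply, hb, bd_single, h.1, h.2]
        ring

/-- a function with sum zero on a linked set is a boundary. -/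
theorem fill {U : V → Prop} {Q : E → Prop} (x : V → ℂ) (hx : ∀ v, x v ≠ 0 → U v)
    (hs : ∑ v, x v = 0) (hl : ∀ u v, U u → U v → Lnk o t Q u v) :
    ∃ p : E → ℂ, (∀ e, ¬ Q e → p e = 0) ∧ B o t p = x := by
  classical
  by_cases h0 : ∃ u, U u
  · obtain ⟨u, hu⟩ := h0
    have : ∀ v, ∃ c : E → ℂ, U v → (∀ e, c e ≠ 0 → Q e) ∧
        ∀ w, bd o t c w = (if w = v then 1 else 0) - if w = u then 1 else 0 := by
      intro v
      by_cases hv : U v
      · obtain ⟨c, hc⟩ := path o t (hl u v hu hv)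
        exact ⟨c, fun _ => hc⟩
      · exact ⟨0, fun h => (hv h).elim⟩
    choose p hp using this
    refine ⟨∑ v, x v • p v, fun e he => ?_, ?_⟩
    · rw [Finset.sum_apply]
      refine Finset.sum_eq_zero fun v _ => ?_
      by_cases hv : x v = 0
      · simp [hv]
      · have : p v e = 0 := by
          by_contra h
          exact he ((hp v (hx v hv)).1 e h)
        simp [this]
    · funext w
      rw [map_sum, Finset.sum_apply]
      have : ∀ v, B o t (x v • p v) w =
          (if w = v then x v else 0) - x v * if w = u then 1 else 0 := by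
        intro v
        rw [map_smul, Pi.smul_apply, B_apply]
        by_cases hv : x v = 0
        · simp [hv]
        · rw [(hp v (hx v hv)).2 w, smul_eq_mul, mul_sub]
          simp
      simp only [this, Finset.sum_sub_distrib, ← Finset.sum_mul, hs]
      simp
  · refine ⟨0, fun _ _ => rfl, ?_⟩
    funext v
    by_contra h
    exact h0 ⟨v, hx v fun h' => h (by simp [h'])⟩

open Classical in
/-- extension by zero. -/
noncomputable def ext {α : Type} (p : α → Prop) : ({a // p a} → ℂ) →ₗ[ℂ] (α → ℂ) where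
  toFun c a := if h : p a then c ⟨a, h⟩ else 0
  map_add' c c' := by
    funext a
    by_cases h : p a <;> simp [h]
  map_smul' r c := by
    funext a
    by_cases h : p a <;> simp [h]

theorem ext_pos {α : Type} {p : α → Prop} (c : {a // p a} → ℂ) {a : α} (h : p a) :
    ext p c a = c ⟨a, h⟩ := dif_pos h

theorem ext_neg {α : Type} {p : α → Prop} (c : {a // p a} → ℂ) {a : α} (h : ¬ p a) :
    ext p c a = 0 := dif_neg h

theorem ext_supp {α : Type} {p : α → Prop} (c : {a // p a} → ℂ) (a : α) (h : ext p c a ≠ 0) :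
    p a := by
  by_contra h'
  exact h (ext_neg c h')

theorem ext_inj {α : Type} (p : α → Prop) : Function.Injective (ext p) := by
  intro c c' h
  funext a
  rw [← ext_pos c a.2, h, ext_pos c' a.2]

theorem ext_res {α : Type} {p : α → Prop} (c : α → ℂ) (h : ∀ a, c a ≠ 0 → p a) :
    ext p (fun a => c a.1) = c := by
  funext a
  by_cases ha : p a
  · exact ext_pos _ ha
  · rw [ext_neg _ ha]
    by_contra h'
    exact ha (h a (Ne.symm h'))

/-- the relative boundary map. -/
noncomputable def rel (pV : V → Prop) (pE : E → Prop) :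
    ({e // pE e} → ℂ) →ₗ[ℂ] ({v // pV v} → ℂ) :=
  LinearMap.funLeft ℂ ℂ Subtype.val ∘ₗ B o t ∘ₗ ext pE

omit [Fintype V] in
theorem rel_apply (pV : V → Prop) (pE : E → Prop) (c : {e // pE e} → ℂ) (v : {v // pV v}) :
    rel o t pV pE c v = bd o t (ext pE c) v.1 := rfl

open Classical in
theorem rel_surj {pV : V → Prop} {pE : E → Prop}
    (h : ∀ v, pV v → ∃ c : E → ℂ, (∀ e, c e ≠ 0 → pE e) ∧
      ∀ w, pV w → bd o t c w = if w = v then 1 else 0) :
    Function.Surjective (rel o t pV pE) := by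
  rw [← LinearMap.range_eq_top, eq_top_iff, ← (Pi.basisFun ℂ {v // pV v}).span_eq,
    Submodule.span_le]
  rintro _ ⟨v, rfl⟩
  obtain ⟨c, hc, hb⟩ := h v.1 v.2
  refine ⟨fun e => c e.1, ?_⟩
  funext w
  rw [rel_apply, ext_res c hc, hb w.1 w.2]
  simp [Pi.single_apply, Subtype.ext_iff]

omit [Fintype V] in
open Classical in
theorem rel_path {iV : V → Prop} {iE Q : E → Prop} (hi : ∀ e, iV (o e) ∨ iV (t e) → iE e)
    {v u : V} (hl : Lnk o t Q v u) (hu : ¬ iV u) :
    ∃ c : E → ℂ, (∀ e, c e ≠ 0 → iE e ∧ Q e) ∧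
      ∀ w, iV w → bd o t c w = if w = v then 1 else 0 := by
  obtain ⟨c, hc, hb⟩ := path o t hl
  refine ⟨fun e => if iE e then -c e else 0, fun e he => ?_, fun w hw => ?_⟩
  · by_cases h : iE e
    · exact ⟨h, hc e (by simpa [h] using he)⟩
    · simp [h] at he
  · have h1 : bd o t (fun e => if iE e then -c e else 0) w = bd o t (-c) w := by
      refine bd_congr o t fun e he => ?_
      have : iE e := hi e (he.imp (fun h : o e = w => h ▸ hw) fun h : t e = w => h ▸ hw)
      simp [this]
    have h2 : w ≠ u := fun h => hu (h ▸ hw)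
    rw [h1, ← B_apply, map_neg, Pi.neg_apply, B_apply, hb]
    simp [h2]

theorem fr_fun (α : Type) [Finite α] : finrank ℂ (α → ℂ) = Nat.card α := by
  have := Fintype.ofFinite α
  simp

omit [Fintype V] in
theorem bd_comp (gV : Perm V) (gE : Perm E) (ho : ∀ e, o (gE e) = gV (o e))
    (ht : ∀ e, t (gE e) = gV (t e)) (c : E → ℂ) (v : V) :
    bd o t (fun e => c (gE e)) v = bd o t c (gV v) := by
  classical
  simp only [bd]
  congr 1
  · refine Fintype.sum_equiv gE _ _ fun e => ?_
    simp [ht]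
  · refine Fintype.sum_equiv gE _ _ fun e => ?_
    simp [ho]

theorem gr1 (U : V → Prop) (Q : E → Prop) (c : E → ℂ) (hU : ∀ v, bd o t c v ≠ 0 → U v)
    (hl : ∀ u v, U u → U v → Lnk o t Q u v) :
    ∃ c', Cyc o t c' ∧ ∀ e, ¬ Q e → c' e = c e := by
  obtain ⟨p, hp, hb⟩ := fill o t (B o t c) hU (sum_bd o t c) hl
  refine ⟨c - p, (cyc_iff o t _).2 (by rw [map_sub, hb, sub_self]), fun e he => ?_⟩
  simp [hp e he]

theorem gr2 (gV : Perm V) (gE : Perm E) (iV : V → Prop) (iE : E → Prop)
    (ho : ∀ e, o (gE e) = gV (o e)) (ht : ∀ e, t (gE e) = gV (t e))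
    (hV : ∀ v, iV (gV v) ↔ iV v) (hE : ∀ e, iE (gE e) ↔ iE e)
    (hi : ∀ e, iV (o e) ∨ iV (t e) → iE e) (hl : ∀ u v, Lnk o t (fun _ => True) u v)
    (hout : ∃ v, ¬ iV v)
    (hodd : ∀ c : E → ℂ, (∀ e, c e ≠ 0 → iE e) → (∀ v, iV v → bd o t c v = 0) →
      ∀ e, c (gE e) = -c e)
    (hne : ∃ c : E → ℂ, c ≠ 0 ∧ (∀ e, c e ≠ 0 → iE e) ∧ ∀ v, iV v → bd o t c v = 0) :
    ∃ v, iV v ∧ gV v = v ∧ ∀ u, Lnk o t (fun e => gE e = e) v u → iV u := by
  classical
  by_contra hcon
  push Not at hcon
  obtain ⟨u₀, hu₀⟩ := hout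
  have hsurj : Function.Surjective (rel o t iV iE) := by
    refine rel_surj o t fun v _ => ?_
    obtain ⟨c, hc, hb⟩ := rel_path o t hi (hl v u₀) hu₀
    exact ⟨c, fun e he => (hc e he).1, hb⟩
  have hsurj' : Function.Surjective
      (rel o t (fun v => iV v ∧ gV v = v) fun e => iE e ∧ gE e = e) := by
    refine rel_surj o t fun v hv => ?_
    obtain ⟨u, hu, hu'⟩ := hcon v hv.1 hv.2
    obtain ⟨c, hc, hb⟩ := rel_path o t hi hu hu'
    exact ⟨c, hc, fun w hw => hb w hw.1⟩
  have hle := LinearMap.finrank_le_finrank_of_surjective hsurj'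
  rw [fr_fun, fr_fun] at hle
  let fE : {e // iE e} → {e // iE e} := fun e => ⟨gE e.1, (hE _).2 e.2⟩
  let fV : {v // iV v} → {v // iV v} := fun v => ⟨gV v.1, (hV _).2 v.2⟩
  have hext : ∀ c : {e // iE e} → ℂ,
      ext iE (LinearMap.funLeft ℂ ℂ fE c) = fun e => ext iE c (gE e) := by
    intro c
    funext e
    by_cases he : iE e
    · rw [ext_pos _ he, ext_pos _ ((hE _).2 he)]
      rfl
    · rw [ext_neg _ he, ext_neg _ fun h => he ((hE _).1 h)]
  have htr := tr_add (LinearMap.ker (rel o t iV iE)).subtype (rel o t iV iE) (-LinearMap.id)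
    (LinearMap.funLeft ℂ ℂ fE) (LinearMap.funLeft ℂ ℂ fV) (Submodule.injective_subtype _) hsurj
    (fun a => by simp) ?_ ?_
  · rw [tr_perm, tr_perm, tr_neg] at htr
    have e1 : Nat.card {e // fE e = e} = Nat.card {e // iE e ∧ gE e = e} :=
      Nat.card_congr ((Equiv.subtypeEquivRight fun e => Subtype.ext_iff).trans
        (Equiv.subtypeSubtypeEquivSubtypeInter iE fun e => gE e = e))
    have e2 : Nat.card {v // fV v = v} = Nat.card {v // iV v ∧ gV v = v} :=
      Nat.card_congr ((Equiv.subtypeEquivRight fun e => Subtype.ext_iff).trans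
        (Equiv.subtypeSubtypeEquivSubtypeInter iV fun v => gV v = v))
    rw [e1, e2] at htr
    obtain ⟨c, hc0, hc, hb⟩ := hne
    have hpos : 0 < finrank ℂ (LinearMap.ker (rel o t iV iE)) := by
      rw [Module.finrank_pos_iff_exists_ne_zero]
      refine ⟨⟨fun e => c e.1, ?_⟩, fun h => hc0 ?_⟩
      · rw [LinearMap.mem_ker]
        funext v
        rw [rel_apply, ext_res c hc]
        exact hb v.1 v.2
      · rw [← ext_res c hc]
        have : (fun e : {e // iE e} => c e.1) = 0 := congrArg Subtype.val h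
        rw [this, map_zero]
    have : (Nat.card {e // iE e ∧ gE e = e} + finrank ℂ (LinearMap.ker (rel o t iV iE)) : ℂ) =
        Nat.card {v // iV v ∧ gV v = v} := by rw [htr]; ring
    have h' : Nat.card {e // iE e ∧ gE e = e} + finrank ℂ (LinearMap.ker (rel o t iV iE)) =
        Nat.card {v // iV v ∧ gV v = v} := by exact_mod_cast this
    omega
  · refine LinearMap.ext fun c => funext fun e => ?_
    have := hodd (ext iE c.1) (ext_supp c.1) (fun v hv => congrFun c.2 ⟨v, hv⟩) e.1
    rw [ext_pos _ e.2, ext_pos _ ((hE _).2 e.2)] at this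
    exact this.symm
  · refine LinearMap.ext fun c => funext fun v => ?_
    change bd o t (ext iE (LinearMap.funLeft ℂ ℂ fE c)) v.1 = bd o t (ext iE c) (gV v.1)
    rw [hext, bd_comp o t gV gE ho ht]

theorem gr3 (iV : V → Prop) (iE : E → Prop) (hi : ∀ e, iV (o e) ∨ iV (t e) → iE e)
    (hl : ∀ u v, Lnk o t (fun _ => True) u v) (hout : ∃ v, ¬ iV v) (hval : Val2 o t)
    (h0 : ∀ c : E → ℂ, (∀ e, c e ≠ 0 → iE e) → (∀ v, iV v → bd o t c v = 0) → c = 0) :
    ∀ e, ¬ iE e := by
  classical
  have hinj : Function.Injective (rel o t iV iE) := by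
    rw [← LinearMap.ker_eq_bot, eq_bot_iff]
    intro c hc
    have := h0 (ext iE c) (ext_supp c) fun v hv => congrFun hc ⟨v, hv⟩
    exact ext_inj iE (by rw [this, map_zero])
  have hle := LinearMap.finrank_le_finrank_of_injective hinj
  rw [fr_fun, fr_fun, Nat.card_eq_fintype_card, Nat.card_eq_fintype_card, Fintype.card_subtype,
    Fintype.card_subtype] at hle
  replace hle : (Finset.univ.filter iE).card ≤ (Finset.univ.filter iV).card := hle
  have hf : ∀ f : E → V, ∑ v ∈ Finset.univ.filter iV, Nat.card {e // f e = v} =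
      (Finset.univ.filter fun e => iV (f e)).card := by
    intro f
    have := Finset.sum_card_fiberwise_eq_card_filter Finset.univ (Finset.univ.filter iV) f
    simp only [Finset.mem_filter, Finset.mem_univ, true_and] at this
    rw [← this]
    refine Finset.sum_congr rfl fun v _ => ?_
    rw [Nat.card_eq_fintype_card, Fintype.card_subtype]
  have hsum : 2 * (Finset.univ.filter iV).card ≤ (Finset.univ.filter fun e => iV (o e)).card +
      (Finset.univ.filter fun e => iV (t e)).card := by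
    rw [← hf, ← hf, ← Finset.sum_add_distrib, mul_comm, ← smul_eq_mul, ← Finset.sum_const]
    exact Finset.sum_le_sum fun v _ => hval v
  have s1 : (Finset.univ.filter fun e => iV (o e)) ⊆ Finset.univ.filter iE := fun e he => by
    simp only [Finset.mem_filter, Finset.mem_univ, true_and] at he ⊢
    exact hi e (Or.inl he)
  have s2 : (Finset.univ.filter fun e => iV (t e)) ⊆ Finset.univ.filter iE := fun e he => by
    simp only [Finset.mem_filter, Finset.mem_univ, true_and] at he ⊢
    exact hi e (Or.inr he)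
  have c1 := Finset.card_le_card s1
  have c2 := Finset.card_le_card s2
  have q1 := Finset.eq_of_subset_of_card_le s1 (by omega)
  have q2 := Finset.eq_of_subset_of_card_le s2 (by omega)
  have hin : ∀ e, iE e → iV (o e) ∧ iV (t e) := by
    intro e he
    have m : e ∈ Finset.univ.filter iE := by simpa using he
    constructor
    · rw [← q1] at m
      simpa using m
    · rw [← q2] at m
      simpa using m
  intro e he
  obtain ⟨u, hu⟩ := hout
  apply hu
  have hp := hl (o e) u
  clear hu
  induction hp with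
  | refl => exact (hin e he).1
  | tail _ hbc ih =>
    obtain ⟨e', -, h | h⟩ := hbc
    · exact h.2 ▸ (hin e' (hi e' (Or.inl (h.1 ▸ ih)))).2
    · exact h.1 ▸ (hin e' (hi e' (Or.inr (h.2 ▸ ih)))).1

theorem gr4 (iV : V → Prop) (iE : E → Prop) (W : Submodule ℂ (E → ℂ))
    (hi : ∀ e, iE e → iV (o e) ∧ iV (t e)) (hin : ∃ v, iV v)
    (hW : ∀ c, Cyc o t c → (∀ e, c e ≠ 0 → iE e) → c ∈ W) :
    Nat.card {e // iE e} + 1 ≤ Nat.card {v // iV v} + finrank ℂ W := by
  classical
  have hz : ∀ (c : {e // iE e} → ℂ) v, ¬ iV v → bd o t (ext iE c) v = 0 := by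
    intro c v hv
    have : bd o t (ext iE c) v = bd o t 0 v := by
      refine bd_congr o t fun e he => ext_neg c fun h => hv ?_
      rcases he with he | he
      · exact he ▸ (hi e h).1
      · exact he ▸ (hi e h).2
    rw [this, ← B_apply, map_zero, Pi.zero_apply]
  have hk : finrank ℂ (LinearMap.ker (rel o t iV iE)) ≤ finrank ℂ W := by
    have hm : ∀ c : LinearMap.ker (rel o t iV iE),
        (ext iE ∘ₗ (LinearMap.ker (rel o t iV iE)).subtype) c ∈ W := by
      intro c
      refine hW _ ((cyc_iff o t _).2 (funext fun v => ?_)) (ext_supp c.1)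
      by_cases hv : iV v
      · exact congrFun c.2 ⟨v, hv⟩
      · exact hz c.1 v hv
    refine LinearMap.finrank_le_finrank_of_injective (f := LinearMap.codRestrict W _ hm) ?_
    intro c c' h
    exact Subtype.ext (ext_inj iE (congrArg Subtype.val h))
  have hr : finrank ℂ (LinearMap.range (rel o t iV iE)) < Nat.card {v // iV v} := by
    rw [← fr_fun]
    refine Submodule.finrank_lt fun h => ?_
    obtain ⟨v, hv⟩ := hin
    obtain ⟨c, hc⟩ := LinearMap.range_eq_top.1 h (Pi.single ⟨v, hv⟩ 1)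
    have h1 : ∑ w : {v // iV v}, rel o t iV iE c w = 1 := by simp [hc]
    have h2 := Fintype.sum_subtype_add_sum_subtype iV (bd o t (ext iE c))
    rw [sum_bd, Finset.sum_eq_zero (s := Finset.univ) (f := fun w : {v // ¬ iV v} =>
      bd o t (ext iE c) w.1) fun w _ => hz c w.1 w.2, add_zero] at h2
    simp only [rel_apply] at h1
    rw [h2] at h1
    exact zero_ne_one h1
  have := LinearMap.finrank_range_add_finrank_ker (rel o t iV iE)
  rw [fr_fun] at this
  omega

end GrAux

open GrAux

theorem sgr : SGr := fun _ _ _ _ o t => ⟨gr1 o t, gr2 o t, gr3 o t, gr4 o t⟩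

theorem slef : SLef := by
  intro V E H _ _ _ _ _ o t j gV gE μ ho ht hne hl hj hc hμ
  classical
  have ho' : ∀ e, o (gE⁻¹ e) = gV⁻¹ (o e) := fun e => by
    rw [Perm.eq_inv_iff_eq, ← ho]; simp
  have ht' : ∀ e, t (gE⁻¹ e) = gV⁻¹ (t e) := fun e => by
    rw [Perm.eq_inv_iff_eq, ← ht]; simp
  have hcard : (Fintype.card V : ℂ) ≠ 0 := by exact_mod_cast Fintype.card_ne_zero
  let d : ((E → ℂ) × ℂ) →ₗ[ℂ] (V → ℂ) :=
    (B o t).coprod (LinearMap.pi fun _ => LinearMap.id)
  have hd : ∀ c l v, d (c, l) v = bd o t c v + l := fun c l v => rfl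
  have htr := tr_add (LinearMap.inl ℂ (E → ℂ) ℂ ∘ₗ j) d μ.toLinearMap
    ((LinearMap.funLeft ℂ ℂ ⇑gE⁻¹).prodMap LinearMap.id) (LinearMap.funLeft ℂ ℂ ⇑gV⁻¹)
    (LinearMap.inl_injective.comp hj) ?_ ?_ ?_ ?_
  · rw [LinearMap.trace_prodMap', tr_perm, tr_perm, LinearMap.trace_id] at htr
    have e1 : Nat.card {e // gE⁻¹ e = e} = Nat.card {e // gE e = e} :=
      Nat.card_congr (Equiv.subtypeEquivRight fun e => by rw [Perm.inv_eq_iff_eq, eq_comm])
    have e2 : Nat.card {v // gV⁻¹ v = v} = Nat.card {v // gV v = v} :=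
      Nat.card_congr (Equiv.subtypeEquivRight fun e => by rw [Perm.inv_eq_iff_eq, eq_comm])
    rw [e1, e2, Module.finrank_self, Nat.cast_one] at htr
    linear_combination -htr
  · intro x
    obtain ⟨p, -, hp⟩ := fill o t (U := fun _ => True) (Q := fun _ => True)
      (fun v => x v - (∑ w, x w) / Fintype.card V) (fun _ _ => trivial)
      (by
        rw [Finset.sum_sub_distrib, Finset.sum_const, Finset.card_univ, nsmul_eq_mul]
        field_simp
        ring) fun u v _ _ => hl u v
    refine ⟨(p, (∑ w, x w) / Fintype.card V), funext fun v => ?_⟩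
    rw [hd, ← B_apply, hp]
    ring
  · rintro ⟨c, l⟩
    constructor
    · intro h
      have h1 : ∑ v, d (c, l) v = 0 := by simp [h]
      simp only [hd, Finset.sum_add_distrib, sum_bd, zero_add, Finset.sum_const, Finset.card_univ,
        nsmul_eq_mul] at h1
      have hl0 : l = 0 := (mul_eq_zero.1 h1).resolve_left hcard
      subst hl0
      obtain ⟨y, hy⟩ := (hc c).2 ((cyc_iff o t c).2 (funext fun v => by
        have := congrFun h v
        rwa [hd, add_zero] at this))
      exact ⟨y, by simp [hy]⟩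
    · rintro ⟨y, hy⟩
      rw [← hy]
      funext v
      change bd o t (j y) v + 0 = 0
      rw [add_zero]
      exact congrFun ((cyc_iff o t _).1 ((hc _).1 ⟨y, rfl⟩)) v
  · refine LinearMap.ext fun y => Prod.ext (funext fun e => ?_) rfl
    change j (μ y) e = j y (gE⁻¹ e)
    rw [← hμ y (gE⁻¹ e)]
    simp
  · refine LinearMap.ext fun ⟨c, l⟩ => funext fun v => ?_
    change bd o t (fun e => c (gE⁻¹ e)) v + l = bd o t c (gV⁻¹ v) + l
    rw [bd_comp o t gV⁻¹ gE⁻¹ ho' ht']

end Pool.Agent.MP_3ce0a0_al.H81
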