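import Pool.Agent.MP_3ce0a0_al.H79.XS
import Pool.Agent.MP_3ce0a0_al.H81.Gr

/-
The Lefschetz formula on a fixed subgraph.
-/

namespace Pool.Agent.MP_3ce0a0_al.H81

open Pool.Agent.MP_3ce0a0_al.H79 Pool.Agent.MP_3ce0a0_al.H79.X Equiv Module GrAux

namespace GL2

variable {V E : Type} [Fintype E] (o t : E → V)

open Classical in
/-- the boundary of the part of a chain on one component. -/
theorem bd_part {C : Type} (r : V → C) (c : E → ℂ) (h : ∀ e, c e ≠ 0 → r (o e) = r (t e))
    (ω : C) (v : V) :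
    bd o t (fun e => if r (o e) = ω then c e else 0) v = if r v = ω then bd o t c v else 0 := by
  by_cases hv : r v = ω
  · rw [if_pos hv]
    refine bd_congr o t fun e he => ?_
    by_cases h0 : c e = 0
    · simp [h0]
    · rcases he with he | he
      · rw [he, if_pos hv]
      · rw [h e h0, he, if_pos hv]
  · rw [if_neg hv]
    have : bd o t (fun e => if r (o e) = ω then c e else 0) v = bd o t 0 v := by
      refine bd_congr o t fun e he => ?_
      by_cases h0 : c e = 0
      · simp [h0]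
      · rcases he with he | he
        · rw [he, if_neg hv]; rfl
        · rw [h e h0, he, if_neg hv]; rfl
    rw [this, ← B_apply, map_zero, Pi.zero_apply]

open Classical in
theorem cyc_part' {C : Type} (r : V → C) (c : E → ℂ) (h : ∀ e, c e ≠ 0 → r (o e) = r (t e))
    (hc : Cyc o t c) (ω : C) : Cyc o t fun e => if r (o e) = ω then c e else 0 := by
  rw [cyc_iff] at hc ⊢
  funext v
  rw [B_apply, bd_part o t r c h, ← B_apply, hc]
  simp

/-- the Lefschetz formula on a graph that need not be connected. -/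
theorem lefC [Fintype V] {C H : Type} [Finite C] [AddCommGroup H] [Module ℂ H]
    [FiniteDimensional ℂ H] (r : V → C) (hr : Function.Surjective r)
    (hl : ∀ u v, r u = r v → Lnk o t (fun _ => True) u v) (he : ∀ e, r (o e) = r (t e))
    (j : H →ₗ[ℂ] (E → ℂ)) (hj : Function.Injective j)
    (hc : ∀ c, c ∈ LinearMap.range j ↔ Cyc o t c) (gV : Perm V) (gE : Perm E) (gC : C → C)
    (ho : ∀ e, o (gE e) = gV (o e)) (ht : ∀ e, t (gE e) = gV (t e))
    (hg : ∀ v, r (gV v) = gC (r v)) (μ : H →ₗ[ℂ] H) (hμ : ∀ h e, j (μ h) e = j h (gE e)) :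
    (Nat.card {e // gE e = e} : ℂ) + Nat.card {ω // gC ω = ω} =
      LinearMap.trace ℂ H μ + Nat.card {v // gV v = v} := by
  classical
  have := Fintype.ofFinite C
  let d : ((E → ℂ) × (C → ℂ)) →ₗ[ℂ] (V → ℂ) := (B o t).coprod (LinearMap.funLeft ℂ ℂ r)
  have hd : ∀ c l v, d (c, l) v = bd o t c v + l (r v) := fun c l v => rfl
  have hn : ∀ ω, (((Finset.univ.filter fun v => r v = ω).card : ℕ) : ℂ) ≠ 0 := by
    intro ω
    obtain ⟨v, hv⟩ := hr ω
    exact_mod_cast Finset.card_ne_zero_of_mem (a := v) (by simpa using hv)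
  have htr := tr_add (LinearMap.inl ℂ (E → ℂ) (C → ℂ) ∘ₗ j) d μ
    ((LinearMap.funLeft ℂ ℂ ⇑gE).prodMap (LinearMap.funLeft ℂ ℂ gC)) (LinearMap.funLeft ℂ ℂ ⇑gV)
    (LinearMap.inl_injective.comp hj) ?_ ?_ ?_ ?_
  · rw [LinearMap.trace_prodMap', tr_perm, tr_perm, tr_perm] at htr
    exact htr
  · rw [← LinearMap.range_eq_top, eq_top_iff, ← (Pi.basisFun ℂ V).span_eq, Submodule.span_le]
    rintro _ ⟨v, rfl⟩
    set n : ℂ := (((Finset.univ.filter fun u => r u = r v).card : ℕ) : ℂ) with hn'
    obtain ⟨p, -, hp⟩ := fill o t (U := fun u => r u = r v) (Q := fun _ => True)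
      (fun u => (if u = v then n else 0) - if r u = r v then 1 else 0)
      (fun u hu => by
        by_contra h
        have : u ≠ v := fun e => h (by rw [e])
        exact hu (by simp [h, this]))
      (by
        rw [Finset.sum_sub_distrib, Finset.sum_ite_eq', Finset.sum_boole]
        simp [hn'])
      fun u w hu hw => hl u w (hu.trans hw.symm)
    rw [SetLike.mem_coe, ← Submodule.smul_mem_iff _ (hn (r v))]
    refine ⟨(p, Pi.single (r v) 1), funext fun u => ?_⟩
    rw [hd, ← B_apply, hp]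
    simp [Pi.single_apply, ← hn']
  · rintro ⟨c, l⟩
    constructor
    · intro h
      have hl0 : l = 0 := by
        funext ω
        have h1 := sum_bd o t fun e => if r (o e) = ω then c e else 0
        simp only [bd_part o t r c fun e _ => he e] at h1
        have h2 : ∀ v, (if r v = ω then bd o t c v else 0) = if r v = ω then -l ω else 0 := by
          intro v
          have := congrFun h v
          rw [hd, Pi.zero_apply] at this
          split_ifs with hv
          · rw [← hv]
            linear_combination this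
          · rfl
        simp only [h2] at h1
        rw [← Finset.sum_filter, Finset.sum_const, nsmul_eq_mul] at h1
        simpa using (mul_eq_zero.1 h1).resolve_left (hn ω)
      subst hl0
      obtain ⟨y, hy⟩ := (hc c).2 ((cyc_iff o t c).2 (funext fun v => by
        have := congrFun h v
        rwa [hd, Pi.zero_apply, add_zero] at this))
      exact ⟨y, by simp [hy]⟩
    · rintro ⟨y, hy⟩
      rw [← hy]
      funext v
      change bd o t (j y) v + 0 = 0
      rw [add_zero]
      exact congrFun ((cyc_iff o t _).1 ((hc _).1 ⟨y, rfl⟩)) v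
  · exact LinearMap.ext fun y => Prod.ext (funext fun e => hμ y e) rfl
  · refine LinearMap.ext fun ⟨c, l⟩ => funext fun v => ?_
    change bd o t (fun e => c (gE e)) v + l (gC (r v)) = bd o t c (gV v) + l (r (gV v))
    rw [bd_comp o t gV gE ho ht, hg]

open Classical in
theorem sum_ext (pE : E → Prop) (f : E → V) (c : {e // pE e} → ℂ) (v : V) :
    (∑ e, if f e = v then ext pE c e else 0) = ∑ e : {e // pE e}, if f e.1 = v then c e else 0 := by
  rw [← Fintype.sum_subtype_add_sum_subtype pE, Finset.sum_eq_zero (s := Finset.univ)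
    (f := fun e : {e // ¬ pE e} => if f e.1 = v then ext pE c e.1 else 0)
    (fun e _ => by simp [ext_neg c e.2]), add_zero]
  exact Finset.sum_congr rfl fun e _ => by rw [ext_pos c e.2]

open Classical in
theorem cyc_ext {pV : V → Prop} {pE : E → Prop} (h1 : ∀ e, pE e → pV (o e))
    (h2 : ∀ e, pE e → pV (t e)) (c : {e // pE e} → ℂ) :
    Cyc (V := {v // pV v}) (fun e : {e // pE e} => ⟨o e.1, h1 _ e.2⟩) (fun e => ⟨t e.1, h2 _ e.2⟩) c ↔
      Cyc o t (ext pE c) := by
  simp only [Cyc, sum_ext, Subtype.ext_iff]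
  refine ⟨fun h v => ?_, fun h v => h v.1⟩
  by_cases hv : pV v
  · exact h ⟨v, hv⟩
  · rw [Finset.sum_eq_zero, Finset.sum_eq_zero]
    · exact fun e _ => if_neg fun k : o e.1 = v => hv (k ▸ h1 _ e.2)
    · exact fun e _ => if_neg fun k : t e.1 = v => hv (k ▸ h2 _ e.2)

omit [Fintype E] in
theorem lnk_sub {pV : V → Prop} {pE : E → Prop} (h1 : ∀ e, pE e → pV (o e))
    (h2 : ∀ e, pE e → pV (t e)) {u v : V} (h : Lnk o t pE u v) (hu : pV u) :
    ∃ hv : pV v, Lnk (V := {v // pV v}) (fun e : {e // pE e} => ⟨o e.1, h1 _ e.2⟩)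
      (fun e => ⟨t e.1, h2 _ e.2⟩) (fun _ => True) ⟨u, hu⟩ ⟨v, hv⟩ := by
  induction h with
  | refl => exact ⟨hu, Relation.ReflTransGen.refl⟩
  | tail _ hbc ih =>
    obtain ⟨hb, ih⟩ := ih
    obtain ⟨e, he, h | h⟩ := hbc
    · exact ⟨h.2 ▸ h2 e he, ih.tail ⟨⟨e, he⟩, trivial, Or.inl ⟨Subtype.ext h.1, Subtype.ext h.2⟩⟩⟩
    · exact ⟨h.1 ▸ h1 e he, ih.tail ⟨⟨e, he⟩, trivial, Or.inr ⟨Subtype.ext h.1, Subtype.ext h.2⟩⟩⟩

theorem mem_zp {O : Type} [Group O] {g y : O} {p q : ℕ} (h : Nat.Coprime p q) (hg : g ^ p = 1)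
    (hy : y ^ q = 1) (c : Commute g y) : y ∈ Subgroup.zpowers (y * g) := by
  have h1 : y ^ p ∈ Subgroup.zpowers (y * g) := by
    have : (y * g) ^ p = y ^ p := by rw [c.symm.mul_pow, hg, mul_one]
    rw [← this]
    exact Subgroup.npow_mem_zpowers _ _
  have h2 := Nat.gcd_eq_gcd_ab p q
  rw [h.gcd_eq_one] at h2
  have h3 : y = (y ^ p) ^ Nat.gcdA p q := by
    conv_lhs => rw [← zpow_one y, ← Nat.cast_one, h2, zpow_add, zpow_mul, zpow_mul, zpow_natCast,
      zpow_natCast, hy, one_zpow, mul_one]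
  have := zpow_mem h1 (Nat.gcdA p q)
  rwa [← h3] at this

theorem card_fix {K X : Type} [Group K] [MulAction K X] {g y : K}
    (hz : ∀ a : K, a ∈ Subgroup.zpowers (y * g)) (h : ∀ x : X, g • y⁻¹ • x = y⁻¹ • x ↔ g • x = x) :
    Nat.card {x : {x : X // g • x = x} // (MulAction.toPerm y⁻¹).subtypePerm h x = x} =
      Nat.card {x : X // MulAction.toPerm (y * g) x = x} := by
  refine Nat.card_congr (((Equiv.subtypeEquivRight fun x => Subtype.ext_iff).trans
    (Equiv.subtypeSubtypeEquivSubtypeInter (fun x : X => g • x = x) fun x => y⁻¹ • x = x)).trans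
    (Equiv.subtypeEquivRight fun x => ?_))
  change _ ↔ (y * g) • x = x
  constructor
  · rintro ⟨a, b⟩
    rw [mul_smul, a, ← inv_smul_eq_iff.1 b]
  · intro a
    have : ∀ b : K, b • x = x := fun b =>
      (Subgroup.zpowers_le (H := MulAction.stabilizer K x)).2 a (hz b)
    exact ⟨this _, this _⟩

end GL2

open GL2

theorem sgeoL : SGeoL := by
  intro H _ _ _ O _ π G
  classical
  constructor
  · intro g hg
    obtain ⟨V, E, _, _, _, _, o, t, j, q, -, -, -, -, -, hj, -, hπ, -, h1, h2, -, h4, h5⟩ :=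
      G.real (Subgroup.zpowers g) (finite_zpowers.2 hg)
    set k : Subgroup.zpowers g := ⟨g, Subgroup.mem_zpowers g⟩ with hk
    refine ⟨Finite.of_surjective (fun v : {v : V // k • v = v} =>
      (⟨q k v.1, h1 k v.1 v.2⟩ : {ω // G.ov ω = g})) fun ω => ?_, fun ω => ?_, fun ω hω => ⟨?_, ?_⟩⟩
    · obtain ⟨v, hv, e⟩ := h2 k ω.1 ω.2
      exact ⟨⟨v, hv⟩, Subtype.ext e⟩
    · rw [Submodule.disjoint_def]
      intro h a b
      let S : Submodule ℂ H := ⨅ e, ⨅ (_ : q k (o e) = ω.1), LinearMap.ker (LinearMap.proj e ∘ₗ j)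
      have hS : (⨆ ω' : {ω // G.ov ω = g}, ⨆ (_ : ω' ≠ ω), G.Φ ω'.1) ≤ S := by
        refine iSup₂_le fun ω' hω' x hx => ?_
        simp only [S, Submodule.mem_iInf, LinearMap.mem_ker]
        intro e he
        by_contra hh
        exact hω' (Subtype.ext ((((h5 k ω'.1 ω'.2 x).1 hx e hh).2).symm.trans he))
      have := hS b
      simp only [S, Submodule.mem_iInf, LinearMap.mem_ker] at this
      refine hj (funext fun e => ?_)
      rw [map_zero]
      by_contra hh
      exact hh (this e ((h5 k ω.1 ω.2 h).1 a e hh).2)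
    · obtain ⟨v, hv, rfl⟩ := h2 k ω hω
      have := h4 k k v hv
      rwa [mul_inv_cancel_right, hv] at this
    · intro h hh
      refine hj (funext fun e => ?_)
      have e1 := hπ k h (k⁻¹ • e)
      rw [smul_inv_smul] at e1
      refine e1.trans ?_
      by_cases a : k • e = e
      · rw [inv_smul_eq_iff.2 a.symm]
      · have z : ∀ e', k • e' ≠ e' → j h e' = 0 := fun e' b => by
          by_contra c
          exact b ((h5 k ω hω h).1 hh e' c).1
        rw [z e a, z]
        rw [smul_inv_smul]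
        exact fun b => a (inv_smul_eq_iff.1 b.symm).symm
  · intro g y p q' hp hq hpq hg hy hc
    have hfin : IsOfFinOrder (y * g) :=
      hc.symm.isOfFinOrder_mul (isOfFinOrder_iff_pow_eq_one.2 ⟨q', hq, hy⟩)
        (isOfFinOrder_iff_pow_eq_one.2 ⟨p, hp, hg⟩)
    have my := mem_zp hpq hg hy hc
    have mg : g ∈ Subgroup.zpowers (y * g) := by
      simpa using mul_mem (inv_mem my) (Subgroup.mem_zpowers (y * g))
    obtain ⟨V, E, _, _, _, _, o, t, j, q, ho, ht, hne, hl, -, hj, hcy, hπ, -, h1, h2, h3, h4, h5⟩ :=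
      G.real (Subgroup.zpowers (y * g)) (finite_zpowers.2 hfin)
    set k : Subgroup.zpowers (y * g) := ⟨g, mg⟩ with hk
    set x : Subgroup.zpowers (y * g) := ⟨y, my⟩ with hx
    have hkx : Commute k x := Subtype.ext hc
    have hz : ∀ a : Subgroup.zpowers (y * g), a ∈ Subgroup.zpowers (x * k) := by
      rintro ⟨_, n, rfl⟩
      exact ⟨n, Subtype.ext (by simp [hx, hk])⟩
    have fo : ∀ e, k • e = e → k • o e = o e := fun e he => by rw [← ho, he]
    have ft : ∀ e, k • e = e → k • t e = t e := fun e he => by rw [← ht, he]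
    have qe : ∀ e, k • e = e → q k (o e) = q k (t e) := fun e he =>
      (h3 k _ _ (fo e he) (ft e he)).2 (Relation.ReflTransGen.single ⟨e, he, Or.inl ⟨rfl, rfl⟩⟩)
    have cV : ∀ v : V, k • x⁻¹ • v = x⁻¹ • v ↔ k • v = v := fun v => by
      rw [← mul_smul, hkx.inv_right.eq, mul_smul, smul_left_cancel_iff]
    have cE : ∀ v : E, k • x⁻¹ • v = x⁻¹ • v ↔ k • v = v := fun v => by
      rw [← mul_smul, hkx.inv_right.eq, mul_smul, smul_left_cancel_iff]
    let r : {v : V // k • v = v} → {ω // G.ov ω = g} := fun v => ⟨q k v.1, h1 k v.1 v.2⟩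
    have hr : Function.Surjective r := fun ω => by
      obtain ⟨v, hv, e⟩ := h2 k ω.1 ω.2
      exact ⟨⟨v, hv⟩, Subtype.ext e⟩
    have fC := Finite.of_surjective r hr
    have hΦ : ∀ h, h ∈ G.Φt g ↔ ∀ e, j h e ≠ 0 → k • e = e := by
      intro h
      constructor
      · intro a
        let S : Submodule ℂ H := ⨅ e, ⨅ (_ : k • e ≠ e), LinearMap.ker (LinearMap.proj e ∘ₗ j)
        have hS : G.Φt g ≤ S := by
          refine iSup₂_le fun ω hω z hz => ?_
          simp only [S, Submodule.mem_iInf, LinearMap.mem_ker]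
          intro e he
          by_contra hh
          exact he ((h5 k ω hω z).1 hz e hh).1
        have := hS a
        simp only [S, Submodule.mem_iInf, LinearMap.mem_ker] at this
        intro e he
        by_contra hh
        exact he (this e hh)
      · intro a
        have := Fintype.ofFinite {ω // G.ov ω = g}
        have hp' : ∀ ω : {ω // G.ov ω = g}, ∃ z, j z = fun e =>
            if q k (o e) = ω.1 then j h e else 0 := fun ω =>
          (hcy _).2 (cyc_part' o t (q k) (j h) (fun e he => qe e (a e he)) ((hcy _).1 ⟨h, rfl⟩) ω.1)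
        choose z hz' using hp'
        have : h = ∑ ω, z ω := by
          refine hj (funext fun e => ?_)
          rw [map_sum, Finset.sum_apply]
          simp only [hz']
          by_cases h0 : j h e = 0
          · simp [h0]
          · rw [Finset.sum_eq_single (r ⟨o e, fo e (a e h0)⟩)
              (fun b _ hb => if_neg fun c => hb (Subtype.ext c.symm)) (by simp), if_pos rfl]
        rw [this]
        refine Submodule.sum_mem _ fun ω _ => ?_
        refine (le_iSup₂_of_le (f := fun ω (_ : G.ov ω = g) => G.Φ ω) ω.1 ω.2 le_rfl :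
          G.Φ ω.1 ≤ G.Φt g) ((h5 k ω.1 ω.2 _).2 fun e he => ?_)
        rw [hz'] at he
        obtain ⟨b, c⟩ := ite_ne_right_iff.1 he
        exact ⟨a e c, b⟩
    have hπ' : ∀ h e, j (π y h) e = j h (x⁻¹ • e) := fun h e => by
      have := hπ x h (x⁻¹ • e)
      rwa [smul_inv_smul] at this
    have hkeep : ∀ v ∈ G.Φt g, π y v ∈ G.Φt g := fun v hv =>
      (hΦ _).2 fun e he => (cE e).1 ((hΦ v).1 hv _ (hπ' v e ▸ he))
    have hov : ∀ ω, G.ov ω = g → G.ov (G.act y⁻¹ ω) = g := fun ω hω => by
      rw [G.ov_act, hω, ← hc.inv_right.eq, inv_inv, inv_mul_cancel_right]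
    have L := lefC (V := {v : V // k • v = v}) (fun e : {e : E // k • e = e} => ⟨o e.1, fo _ e.2⟩)
      (fun e => ⟨t e.1, ft _ e.2⟩) r hr
      (fun u v huv => (lnk_sub o t (pV := fun v => k • v = v) fo ft
        ((h3 k _ _ u.2 v.2).1 (congrArg Subtype.val huv)) u.2).2)
      (fun e => Subtype.ext (qe e.1 e.2))
      (LinearMap.funLeft ℂ ℂ Subtype.val ∘ₗ j ∘ₗ (G.Φt g).subtype) ?_ ?_
      ((MulAction.toPerm x⁻¹).subtypePerm cV) ((MulAction.toPerm x⁻¹).subtypePerm cE)
      (fun ω => ⟨G.act y⁻¹ ω.1, hov _ ω.2⟩) (fun e => Subtype.ext (ho x⁻¹ e.1))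
      (fun e => Subtype.ext (ht x⁻¹ e.1)) ?_ ((π y).restrict hkeep) fun h e => hπ' h.1 e.1
    · have M := slef V E H o t j (MulAction.toPerm (x * k)) (MulAction.toPerm (x * k))
        (LinearEquiv.ofLinearMap (π (y * g)) (π (y * g)⁻¹)
          (by rw [← Module.End.mul_eq_comp, ← map_mul, mul_inv_cancel, map_one]; rfl)
          (by rw [← Module.End.mul_eq_comp, ← map_mul, inv_mul_cancel, map_one]; rfl))
        (ho _) (ht _) hne hl hj hcy (hπ (x * k))
      rw [card_fix hz cV, card_fix hz cE] at L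
      have e1 : G.fx g y = Nat.card {ω : {ω // G.ov ω = g} //
          (⟨G.act y⁻¹ ω.1, hov _ ω.2⟩ : {ω // G.ov ω = g}) = ω} :=
        Nat.card_congr ((((Equiv.subtypeEquivRight fun x => Subtype.ext_iff).trans
          (Equiv.subtypeSubtypeEquivSubtypeInter (fun ω => G.ov ω = g)
            fun ω => G.act y⁻¹ ω = ω)).trans (Equiv.subtypeEquivRight fun ω => by
              rw [map_inv, Perm.inv_eq_iff_eq, eq_comm (a := ω)])).symm)
      rw [trOn, dif_pos hkeep, e1]
      rw [LinearEquiv.toLinearMap_ofLinearMap] at M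
      linear_combination -L - M
    · rw [← LinearMap.ker_eq_bot, eq_bot_iff]
      intro h hh
      refine Subtype.ext (hj (funext fun e => ?_))
      rw [Submodule.coe_zero, map_zero]
      by_contra c
      exact c (congrFun hh ⟨e, (hΦ _).1 h.2 e c⟩)
    · intro c
      rw [cyc_ext o t (pV := fun v => k • v = v) fo ft, ← hcy]
      constructor
      · rintro ⟨h, rfl⟩
        exact ⟨h.1, (ext_res _ ((hΦ _).1 h.2)).symm⟩
      · rintro ⟨h, hh⟩
        refine ⟨⟨h, (hΦ _).2 fun e he => ext_supp c e (hh ▸ he)⟩, funext fun e => ?_⟩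
        change j h e.1 = c e
        rw [hh, ext_pos c e.2]
    · intro v
      refine Subtype.ext ?_
      have := h4 x⁻¹ k v.1 v.2
      rw [← hkx.inv_right.eq, mul_inv_cancel_right] at this
      exact this.symm

end Pool.Agent.MP_3ce0a0_al.H81
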